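import Mathlib

/-!
# A fractional Helly theorem with constant tending to one

Closed convex sets `C x` in a Euclidean space `W` of dimension `D`, indexed by a finite set `V` with
`n ≥ D + 1` elements. For every `δ > 0` there is `ε > 0` such that, if at most `ε * (n choose (D+1))` of
the `(D+1)`-element subfamilies have empty intersection, then some point is in at least `(1 - δ) n` of
the sets.

Proof: the point of least norm of a nonempty intersection `⋂ x ∈ S, C x` is also the point of least norm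
of `⋂ x ∈ J, C x` for some `J ⊆ S` with at most `D` elements (Helly's theorem). Hence, if all points are
in at most `m` of the sets, at most `(s choose D) n ^ D m ^ (s - D)` sequences of length `s` of
elements of `V` give an intersecting family.
-/

set_option autoImplicit false

open Finset Module

namespace Pool.Agent.U456.KB

variable {W : Type*} [NormedAddCommGroup W] [InnerProductSpace ℝ W]
variable {ι : Type*} (C : ι → Set W)

/-- the intersection of the sets with index in `J` -/
def P (J : Finset ι) : Set W := ⋂ x ∈ J, C x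

lemma mem_P {J : Finset ι} {w : W} : w ∈ P C J ↔ ∀ x ∈ J, w ∈ C x := by
  simp [P]

lemma P_mono {J K : Finset ι} (h : J ⊆ K) : P C K ⊆ P C J := by
  intro w hw
  rw [mem_P] at *
  exact fun x hx => hw x (h hx)

/-- `w` is a point of least norm of the intersection -/
def IsMin (J : Finset ι) (w : W) : Prop := w ∈ P C J ∧ ∀ v ∈ P C J, ‖w‖ ≤ ‖v‖

variable {C}

lemma convex_P (hc : ∀ x, Convex ℝ (C x)) (J : Finset ι) : Convex ℝ (P C J) :=
  convex_iInter₂ fun x _ => hc x

lemma isClosed_P (hcl : ∀ x, IsClosed (C x)) (J : Finset ι) : IsClosed (P C J) :=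
  isClosed_biInter fun x _ => hcl x

lemma IsMin.unique (hc : ∀ x, Convex ℝ (C x)) {J : Finset ι} {w w' : W} (h : IsMin C J w)
    (h' : IsMin C J w') : w = w' := by
  have hn : ‖w‖ = ‖w'‖ := le_antisymm (h.2 _ h'.1) (h'.2 _ h.1)
  have hm : (1 / 2 : ℝ) • w + (1 / 2 : ℝ) • w' ∈ P C J :=
    convex_P hc J h.1 h'.1 (by norm_num) (by norm_num) (by norm_num)
  have h1 := h.2 _ hm
  rw [← smul_add, norm_smul] at h1
  have h2 : 2 * ‖w‖ ≤ ‖w + w'‖ := by
    rw [Real.norm_of_nonneg (by norm_num : (0:ℝ) ≤ 1 / 2)] at h1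
    linarith
  have h3 := parallelogram_law_with_norm ℝ w w'
  have h4 : ‖w - w'‖ * ‖w - w'‖ ≤ 0 := by
    rw [← hn] at h3
    nlinarith [norm_nonneg w, norm_nonneg (w + w')]
  have h5 : ‖w - w'‖ = 0 := by
    have := norm_nonneg (w - w')
    nlinarith
  exact sub_eq_zero.1 (norm_eq_zero.1 h5)

lemma exists_isMin [FiniteDimensional ℝ W] (hcl : ∀ x, IsClosed (C x)) {J : Finset ι}
    (h : (P C J).Nonempty) : ∃ w, IsMin C J w := by
  have : ProperSpace W := FiniteDimensional.proper ℝ W
  obtain ⟨w, hw, hd⟩ := (isClosed_P hcl J).exists_infDist_eq_dist h 0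
  refine ⟨w, hw, fun v hv => ?_⟩
  have := Metric.infDist_le_dist_of_mem (x := (0 : W)) hv
  rw [hd, dist_zero_left, dist_zero_left] at this
  exact this

lemma IsMin.mono {J K : Finset ι} (h : J ⊆ K) {w : W} (hw : IsMin C J w) (hK : w ∈ P C K) :
    IsMin C K w := ⟨hK, fun v hv => hw.2 v (P_mono C h hv)⟩

/-- The point of least norm is determined by at most `D` of the sets. -/
lemma IsMin.exists_small [FiniteDimensional ℝ W] (hc : ∀ x, Convex ℝ (C x)) {S : Finset ι} {w : W}
    (h : IsMin C S w) : ∃ J ⊆ S, #J ≤ finrank ℝ W ∧ IsMin C J w := by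
  classical
  by_contra hcon
  push Not at hcon
  let F : Option ι → Set W := fun o => o.elim (Metric.ball 0 ‖w‖) C
  have hF : ∀ o ∈ insert none (S.map Function.Embedding.some), Convex ℝ (F o) := by
    intro o _
    cases o with
    | none => exact convex_ball _ _
    | some x => exact hc x
  have hI : ∀ I ⊆ insert none (S.map Function.Embedding.some), #I ≤ finrank ℝ W + 1 →
      (⋂ o ∈ I, F o).Nonempty := by
    intro I hIs hIc
    set J : Finset ι := S.filter (fun x => some x ∈ I) with hJ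
    by_cases hn : none ∈ I
    · have hcard : #J ≤ finrank ℝ W := by
        have h1 : J.map Function.Embedding.some ⊆ I.erase none := by
          intro o ho
          rw [mem_map] at ho
          obtain ⟨x, hx, rfl⟩ := ho
          rw [mem_erase]
          exact ⟨by simp, (mem_filter.1 hx).2⟩
        have h2 := card_le_card h1
        rw [card_map, card_erase_of_mem hn] at h2
        omega
      have h3 := hcon J (filter_subset _ _) hcard
      have hwJ : w ∈ P C J := P_mono C (filter_subset _ _) h.1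
      have h4 : ∃ v ∈ P C J, ‖v‖ < ‖w‖ := by
        by_contra hh
        push Not at hh
        exact h3 ⟨hwJ, hh⟩
      obtain ⟨v, hv, hvw⟩ := h4
      refine ⟨v, ?_⟩
      rw [Set.mem_iInter₂]
      intro o ho
      cases o with
      | none => simpa [F] using hvw
      | some x =>
        have hxS : x ∈ S := by
          have := hIs ho
          simpa using this
        exact (mem_P C).1 hv x (mem_filter.2 ⟨hxS, ho⟩)
    · refine ⟨w, ?_⟩
      rw [Set.mem_iInter₂]
      intro o ho
      cases o with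
      | none => exact absurd ho hn
      | some x =>
        have hxS : x ∈ S := by
          have := hIs ho
          simpa using this
        exact (mem_P C).1 h.1 x hxS
  obtain ⟨v, hv⟩ := Convex.helly_theorem' hF hI
  rw [Set.mem_iInter₂] at hv
  have h0 : v ∈ Metric.ball (0 : W) ‖w‖ := hv none (mem_insert_self _ _)
  have h1 : v ∈ P C S := by
    rw [mem_P]
    intro x hx
    exact hv (some x) (mem_insert_of_mem (mem_map_of_mem _ hx))
  have h2 := h.2 v h1
  rw [mem_ball_zero_iff] at h0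
  linarith

open Classical in
/-- the point of least norm (or zero) -/
noncomputable def mn (C : ι → Set W) (J : Finset ι) : W :=
  if h : ∃ w, IsMin C J w then h.choose else 0

lemma mn_eq (hc : ∀ x, Convex ℝ (C x)) {J : Finset ι} {w : W} (h : IsMin C J w) : mn C J = w := by
  have hex : ∃ w, IsMin C J w := ⟨w, h⟩
  rw [mn, dif_pos hex]
  exact IsMin.unique hc hex.choose_spec h

/-- extend a small subset of the image to the image of `k` positions -/
lemma exists_positions [DecidableEq ι] {s k : ℕ} (hks : k ≤ s) (t : Fin s → ι) {J : Finset ι}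
    (hJ : J ⊆ univ.image t) (hk : #J ≤ k) :
    ∃ R : Finset (Fin s), #R = k ∧ J ⊆ R.image t := by
  classical
  have h1 : ∀ x : J, ∃ i, t i = x.1 := by
    intro x
    simpa using hJ x.2
  choose p hp using h1
  have h2 : #(univ.image p) ≤ k := by
    refine le_trans card_image_le ?_
    rw [card_univ, Fintype.card_coe]
    exact hk
  obtain ⟨R, hR1, -, hR2⟩ := exists_subsuperset_card_eq (subset_univ (univ.image p)) h2
    (by simpa using hks)
  refine ⟨R, hR2, fun x hx => ?_⟩
  rw [mem_image]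
  exact ⟨p ⟨x, hx⟩, hR1 (mem_image_of_mem _ (mem_univ _)), hp ⟨x, hx⟩⟩

lemma count {s k : ℕ} (R : Finset (Fin s)) (hR : #R = k) (T : Finset (Fin s → ι))
    (Q : Finset (Fin k → ι)) (G : (Fin k → ι) → Finset ι) (M : ℕ)
    (hQ : ∀ t ∈ T, (fun i => t (R.orderEmbOfFin hR i)) ∈ Q)
    (hG : ∀ t ∈ T, ∀ i ∉ R, t i ∈ G (fun i => t (R.orderEmbOfFin hR i)))
    (hM : ∀ u, #(G u) ≤ M) : #T ≤ #Q * M ^ (s - k) := by
  classical
  rw [card_eq_sum_card_fiberwise (f := fun t : Fin s → ι => fun i => t (R.orderEmbOfFin hR i))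
    (t := Q) (fun t ht => hQ t ht)]
  rw [← smul_eq_mul, ← sum_const]
  refine sum_le_sum fun u _ => ?_
  have h1 : #(Fintype.piFinset (fun _ : {i // i ∉ R} => G u)) ≤ M ^ (s - k) := by
    rw [Fintype.card_piFinset]
    rw [prod_const, card_univ]
    have h2 : Fintype.card {i // i ∉ R} = s - k := by
      rw [Fintype.card_subtype_compl, Fintype.card_fin, Fintype.card_coe, hR]
    rw [h2]
    exact Nat.pow_le_pow_left (hM u) _
  refine le_trans (card_le_card_of_injOn (fun t => fun i : {i // i ∉ R} => t i.1) ?_ ?_) h1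
  · intro t ht
    rw [mem_coe, mem_filter] at ht
    rw [mem_coe, Fintype.mem_piFinset]
    intro i
    have := hG t ht.1 i.1 i.2
    rw [ht.2] at this
    exact this
  · intro t ht t' ht' htt
    rw [mem_coe, mem_filter] at ht ht'
    funext i
    by_cases hi : i ∈ R
    · have h3 : i ∈ Set.range (R.orderEmbOfFin hR) := by
        rw [range_orderEmbOfFin]
        exact hi
      obtain ⟨j, rfl⟩ := h3
      have h4 := congrFun (ht.2.trans ht'.2.symm) j
      exact h4
    · exact congrFun htt ⟨i, hi⟩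

lemma image_orderEmb [DecidableEq ι] {s k : ℕ} (R : Finset (Fin s)) (hR : #R = k) (t : Fin s → ι) :
    (univ.image fun i => t (R.orderEmbOfFin hR i)) = R.image t := by
  ext x
  simp only [mem_image, mem_univ, true_and]
  constructor
  · rintro ⟨i, rfl⟩
    exact ⟨_, orderEmbOfFin_mem R hR i, rfl⟩
  · rintro ⟨i, hi, rfl⟩
    have h3 : i ∈ Set.range (R.orderEmbOfFin hR) := by
      rw [range_orderEmbOfFin]
      exact hi
    obtain ⟨j, rfl⟩ := h3
    exact ⟨j, rfl⟩

open Classical in
/-- at most `(s choose D) n ^ D M ^ (s - D)` intersecting sequences -/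
lemma card_good [FiniteDimensional ℝ W] (hc : ∀ x, Convex ℝ (C x)) (hcl : ∀ x, IsClosed (C x))
    (V : Finset ι) {s M : ℕ} (hs : finrank ℝ W ≤ s)
    (hM : ∀ w : W, #{x ∈ V | w ∈ C x} ≤ M) :
    #{t ∈ Fintype.piFinset (fun _ : Fin s => V) | (P C (univ.image t)).Nonempty} ≤
      s.choose (finrank ℝ W) * (#V ^ finrank ℝ W * M ^ (s - finrank ℝ W)) := by
  set D := finrank ℝ W with hD
  have h1 : {t ∈ Fintype.piFinset (fun _ : Fin s => V) | (P C (univ.image t)).Nonempty} ⊆
      (powersetCard D (univ : Finset (Fin s))).biUnion fun R =>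
        {t ∈ Fintype.piFinset (fun _ : Fin s => V) | ∀ i, mn C (R.image t) ∈ C (t i)} := by
    intro t ht
    rw [mem_filter] at ht
    obtain ⟨w, hw⟩ := exists_isMin hcl ht.2
    obtain ⟨J, hJ1, hJ2, hJ3⟩ := hw.exists_small hc
    obtain ⟨R, hR1, hR2⟩ := exists_positions hs t hJ1 hJ2
    rw [mem_biUnion]
    refine ⟨R, by simp [hR1], ?_⟩
    rw [mem_filter]
    refine ⟨ht.1, fun i => ?_⟩
    have hsub : R.image t ⊆ univ.image t := image_subset_image (subset_univ _)
    have h5 : IsMin C (R.image t) w := hJ3.mono hR2 (P_mono C hsub hw.1)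
    rw [mn_eq hc h5]
    exact (mem_P C).1 hw.1 _ (mem_image_of_mem _ (mem_univ _))
  refine le_trans (card_le_card h1) (le_trans card_biUnion_le ?_)
  have h2 : ∀ R ∈ powersetCard D (univ : Finset (Fin s)),
      #{t ∈ Fintype.piFinset (fun _ : Fin s => V) | ∀ i, mn C (R.image t) ∈ C (t i)} ≤
        #V ^ D * M ^ (s - D) := by
    intro R hR
    rw [mem_powersetCard] at hR
    have h3 := count R hR.2
      {t ∈ Fintype.piFinset (fun _ : Fin s => V) | ∀ i, mn C (R.image t) ∈ C (t i)}
      (Fintype.piFinset fun _ : Fin D => V)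
      (fun u => {x ∈ V | mn C (univ.image u) ∈ C x}) M ?_ ?_ (fun u => hM _)
    · rw [Fintype.card_piFinset, prod_const, card_univ, Fintype.card_fin] at h3
      exact h3
    · intro t ht
      rw [mem_filter, Fintype.mem_piFinset] at ht
      rw [Fintype.mem_piFinset]
      exact fun i => ht.1 _
    · intro t ht i _
      rw [mem_filter, Fintype.mem_piFinset] at ht
      rw [mem_filter, image_orderEmb R hR.2 t]
      exact ⟨ht.1 i, ht.2 i⟩
  refine le_trans (sum_le_sum h2) ?_
  rw [sum_const, card_powersetCard, card_univ, Fintype.card_fin, smul_eq_mul]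

open Classical in
lemma card_bad [FiniteDimensional ℝ W] (hc : ∀ x, Convex ℝ (C x))
    (V : Finset ι) {s : ℕ} (hs : finrank ℝ W + 1 ≤ s) :
    #{t ∈ Fintype.piFinset (fun _ : Fin s => V) | ¬ (P C (univ.image t)).Nonempty} ≤
      s.choose (finrank ℝ W + 1) *
        (#{u ∈ Fintype.piFinset (fun _ : Fin (finrank ℝ W + 1) => V) |
          ¬ (P C (univ.image u)).Nonempty} * #V ^ (s - (finrank ℝ W + 1))) := by
  set D := finrank ℝ W with hD
  have h1 : {t ∈ Fintype.piFinset (fun _ : Fin s => V) | ¬ (P C (univ.image t)).Nonempty} ⊆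
      (powersetCard (D + 1) (univ : Finset (Fin s))).biUnion fun R =>
        {t ∈ Fintype.piFinset (fun _ : Fin s => V) | ¬ (P C (R.image t)).Nonempty} := by
    intro t ht
    rw [mem_filter] at ht
    have h2 : ∃ J ⊆ univ.image t, #J ≤ D + 1 ∧ ¬ (P C J).Nonempty := by
      by_contra hcon
      push Not at hcon
      exact ht.2 (Convex.helly_theorem' (fun x _ => hc x) hcon)
    obtain ⟨J, hJ1, hJ2, hJ3⟩ := h2
    obtain ⟨R, hR1, hR2⟩ := exists_positions hs t hJ1 hJ2
    rw [mem_biUnion]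
    refine ⟨R, by simp [hR1], ?_⟩
    rw [mem_filter]
    exact ⟨ht.1, fun h => hJ3 (h.mono (P_mono C hR2))⟩
  refine le_trans (card_le_card h1) (le_trans card_biUnion_le ?_)
  have h2 : ∀ R ∈ powersetCard (D + 1) (univ : Finset (Fin s)),
      #{t ∈ Fintype.piFinset (fun _ : Fin s => V) | ¬ (P C (R.image t)).Nonempty} ≤
        #{u ∈ Fintype.piFinset (fun _ : Fin (D + 1) => V) |
          ¬ (P C (univ.image u)).Nonempty} * #V ^ (s - (D + 1)) := by
    intro R hR
    rw [mem_powersetCard] at hR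
    refine count R hR.2 _ _ (fun _ => V) (#V) ?_ ?_ (fun u => le_rfl)
    · intro t ht
      rw [mem_filter, Fintype.mem_piFinset] at ht
      rw [mem_filter, Fintype.mem_piFinset, image_orderEmb R hR.2 t]
      exact ⟨fun i => ht.1 _, ht.2⟩
    · intro t ht i _
      rw [mem_filter, Fintype.mem_piFinset] at ht
      exact ht.1 i
  refine le_trans (sum_le_sum h2) ?_
  rw [sum_const, card_powersetCard, card_univ, Fintype.card_fin, smul_eq_mul]

open Classical in
/-- bad sequences versus bad subsets -/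
lemma card_bad_tuples (V : Finset ι) (k : ℕ) (hk : k ≤ #V) :
    #{u ∈ Fintype.piFinset (fun _ : Fin k => V) | ¬ (P C (univ.image u)).Nonempty} ≤
      #{S ∈ powersetCard k V | ¬ (P C S).Nonempty} * k ^ k := by
  have h1 : ∀ u ∈ {u ∈ Fintype.piFinset (fun _ : Fin k => V) | ¬ (P C (univ.image u)).Nonempty},
      ∃ S ∈ {S ∈ powersetCard k V | ¬ (P C S).Nonempty}, univ.image u ⊆ S := by
    intro u hu
    rw [mem_filter, Fintype.mem_piFinset] at hu
    have hsub : univ.image u ⊆ V := by
      intro x hx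
      rw [mem_image] at hx
      obtain ⟨i, -, rfl⟩ := hx
      exact hu.1 i
    have hcard : #(univ.image u) ≤ k := by
      refine le_trans card_image_le ?_
      simp
    obtain ⟨S, hS1, hS2, hS3⟩ := exists_subsuperset_card_eq hsub hcard hk
    refine ⟨S, ?_, hS1⟩
    rw [mem_filter, mem_powersetCard]
    exact ⟨⟨hS2, hS3⟩, fun h => hu.2 (h.mono (P_mono C hS1))⟩
  choose! f hf1 hf2 using h1
  rw [card_eq_sum_card_fiberwise (f := f) (t := {S ∈ powersetCard k V | ¬ (P C S).Nonempty})
    (fun u hu => hf1 u hu)]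
  rw [← smul_eq_mul, ← sum_const]
  refine sum_le_sum fun S hS => ?_
  rw [mem_filter, mem_powersetCard] at hS
  have h2 : #(Fintype.piFinset (fun _ : Fin k => S)) = k ^ k := by
    rw [Fintype.card_piFinset, prod_const, card_univ, Fintype.card_fin, hS.1.2]
  rw [← h2]
  refine card_le_card fun u hu => ?_
  rw [mem_filter] at hu
  rw [Fintype.mem_piFinset]
  intro i
  have := hf2 u hu.1
  rw [hu.2] at this
  exact this (mem_image_of_mem _ (mem_univ _))

lemma exists_length (D : ℕ) {r : ℝ} (hr0 : 0 < r) (hr1 : r < 1) :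
    ∃ s : ℕ, D + 1 ≤ s ∧ (s.choose D : ℝ) * r ^ (s - D) < 1 / 2 := by
  have h1 := tendsto_pow_const_mul_const_pow_of_abs_lt_one D (r := r)
    (by rw [abs_of_pos hr0]; exact hr1)
  have h2 : (0 : ℝ) < r ^ D / 2 := by positivity
  have h3 := (h1.eventually_lt_const h2).and (Filter.eventually_ge_atTop (D + 1))
  obtain ⟨s, hs1, hs2⟩ := h3.exists
  refine ⟨s, hs2, ?_⟩
  have h4 : (s.choose D : ℝ) ≤ (s : ℝ) ^ D := by
    exact_mod_cast Nat.choose_le_pow s D
  have h5 : r ^ s = r ^ D * r ^ (s - D) := by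
    rw [← pow_add]
    congr 1
    omega
  have h6 : (0 : ℝ) < r ^ D := by positivity
  have h7 : (0 : ℝ) ≤ r ^ (s - D) := by positivity
  have h8 : (s.choose D : ℝ) * r ^ (s - D) ≤ (s : ℝ) ^ D * r ^ (s - D) :=
    mul_le_mul_of_nonneg_right h4 h7
  have h9 : r ^ D * ((s : ℝ) ^ D * r ^ (s - D)) < r ^ D * (1 / 2) := by
    calc r ^ D * ((s : ℝ) ^ D * r ^ (s - D)) = (s : ℝ) ^ D * r ^ s := by rw [h5]; ring
      _ < r ^ D / 2 := hs1
      _ = r ^ D * (1 / 2) := by ring
  have h10 := lt_of_mul_lt_mul_left h9 h6.le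
  linarith

open Classical in
/-- **Fractional Helly theorem with constant tending to one.** -/
theorem frac_helly (W : Type*) [NormedAddCommGroup W] [InnerProductSpace ℝ W]
    [FiniteDimensional ℝ W] {δ : ℝ} (hδ : 0 < δ) :
    ∃ ε : ℝ, 0 < ε ∧ ∀ (ι : Type) (C : ι → Set W), (∀ x, Convex ℝ (C x)) → (∀ x, IsClosed (C x)) →
      ∀ V : Finset ι, finrank ℝ W + 1 ≤ #V →
      (#{S ∈ powersetCard (finrank ℝ W + 1) V | ¬ (P C S).Nonempty} : ℝ) ≤
        ε * ((#V).choose (finrank ℝ W + 1) : ℝ) →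
      ∃ w : W, (1 - δ) * (#V : ℝ) ≤ (#{x ∈ V | w ∈ C x} : ℝ) := by
  by_cases hδ1 : 1 ≤ δ
  · refine ⟨1, one_pos, fun ι C _ _ V _ _ => ⟨0, ?_⟩⟩
    have h1 : (1 - δ) * (#V : ℝ) ≤ 0 :=
      mul_nonpos_of_nonpos_of_nonneg (by linarith) (Nat.cast_nonneg _)
    exact le_trans h1 (Nat.cast_nonneg _)
  push Not at hδ1
  obtain ⟨s, hs1, hs2⟩ := exists_length (finrank ℝ W) (r := 1 - δ) (by linarith) (by linarith)
  set D := finrank ℝ W with hD
  set K : ℝ := (s.choose (D + 1) : ℝ) * ((D : ℝ) + 1) ^ (D + 1) with hK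
  have hK0 : 0 < K := by
    have : 0 < s.choose (D + 1) := Nat.choose_pos hs1
    positivity
  refine ⟨1 / (2 * K), by positivity, ?_⟩
  intro ι C hc hcl V hV hbad
  by_contra hcon
  push Not at hcon
  set n := #V with hn
  have hn0 : 0 < n := by omega
  set M := ⌊(1 - δ) * (n : ℝ)⌋₊ with hM
  have hMr : (M : ℝ) ≤ (1 - δ) * n := Nat.floor_le (by
    have : (0:ℝ) ≤ 1 - δ := by linarith
    positivity)
  have hMw : ∀ w : W, #{x ∈ V | w ∈ C x} ≤ M := fun w => Nat.le_floor (hcon w).le
  have hg := card_good hc hcl V (le_trans (Nat.le_succ _) hs1) hMw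
  have hb := card_bad hc V hs1
  have ht := card_bad_tuples (C := C) V (D + 1) hV
  rw [← hD, ← hn] at hg hb
  set b := #{u ∈ Fintype.piFinset (fun _ : Fin (D + 1) => V) | ¬ (P C (univ.image u)).Nonempty}
    with hb'
  set β := #{S ∈ powersetCard (D + 1) V | ¬ (P C S).Nonempty} with hβ
  have htot : #(Fintype.piFinset (fun _ : Fin s => V)) = n ^ s := by
    rw [Fintype.card_piFinset, prod_const, card_univ, Fintype.card_fin]
  have hsplit := card_filter_add_card_filter_not (s := Fintype.piFinset (fun _ : Fin s => V))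
    (fun t => (P C (univ.image t)).Nonempty)
  rw [htot] at hsplit
  have h1 : (n : ℝ) ^ s ≤ (s.choose D : ℝ) * ((n : ℝ) ^ D * (M : ℝ) ^ (s - D)) +
      (s.choose (D + 1) : ℝ) * ((b : ℝ) * (n : ℝ) ^ (s - (D + 1))) := by
    have : n ^ s ≤ s.choose D * (n ^ D * M ^ (s - D)) +
      s.choose (D + 1) * (b * n ^ (s - (D + 1))) := by
      rw [← hsplit]
      exact add_le_add hg hb
    exact_mod_cast this
  have hnr : (0 : ℝ) < n := by exact_mod_cast hn0
  have h2 : (M : ℝ) ^ (s - D) ≤ (1 - δ) ^ (s - D) * (n : ℝ) ^ (s - D) := by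
    rw [← mul_pow]
    exact pow_le_pow_left₀ (Nat.cast_nonneg _) hMr _
  have h3 : (s.choose D : ℝ) * ((n : ℝ) ^ D * (M : ℝ) ^ (s - D)) < 1 / 2 * (n : ℝ) ^ s := by
    have h4 : (n : ℝ) ^ s = (n : ℝ) ^ D * (n : ℝ) ^ (s - D) := by
      rw [← pow_add]
      congr 1
      omega
    calc (s.choose D : ℝ) * ((n : ℝ) ^ D * (M : ℝ) ^ (s - D))
        ≤ (s.choose D : ℝ) * ((n : ℝ) ^ D * ((1 - δ) ^ (s - D) * (n : ℝ) ^ (s - D))) := by
          gcongr
      _ = ((s.choose D : ℝ) * (1 - δ) ^ (s - D)) * (n : ℝ) ^ s := by rw [h4]; ring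
      _ < 1 / 2 * (n : ℝ) ^ s := by
          apply mul_lt_mul_of_pos_right hs2
          positivity
  have h5 : (b : ℝ) ≤ (β : ℝ) * ((D : ℝ) + 1) ^ (D + 1) := by
    have : (b : ℝ) ≤ ((β * (D + 1) ^ (D + 1) : ℕ) : ℝ) := by exact_mod_cast ht
    push_cast at this
    exact this
  have h6 : (β : ℝ) ≤ 1 / (2 * K) * (n : ℝ) ^ (D + 1) := by
    refine le_trans hbad ?_
    have : ((n.choose (D + 1) : ℕ) : ℝ) ≤ (n : ℝ) ^ (D + 1) := by
      exact_mod_cast Nat.choose_le_pow n (D + 1)
    have hp : (0 : ℝ) ≤ 1 / (2 * K) := by positivity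
    exact mul_le_mul_of_nonneg_left this hp
  have h7 : (s.choose (D + 1) : ℝ) * ((b : ℝ) * (n : ℝ) ^ (s - (D + 1))) ≤ 1 / 2 * (n : ℝ) ^ s := by
    have h8 : (n : ℝ) ^ s = (n : ℝ) ^ (D + 1) * (n : ℝ) ^ (s - (D + 1)) := by
      rw [← pow_add]
      congr 1
      omega
    calc (s.choose (D + 1) : ℝ) * ((b : ℝ) * (n : ℝ) ^ (s - (D + 1)))
        ≤ (s.choose (D + 1) : ℝ) * (((1 / (2 * K) * (n : ℝ) ^ (D + 1)) * ((D : ℝ) + 1) ^ (D + 1))
          * (n : ℝ) ^ (s - (D + 1))) := by
          gcongr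
          exact le_trans h5 (by gcongr)
      _ = (K * (1 / (2 * K))) * (n : ℝ) ^ s := by rw [h8, hK]; ring
      _ = 1 / 2 * (n : ℝ) ^ s := by
          congr 1
          field_simp
  linarith

end Pool.Agent.U456.KB
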